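import Mathlib
import Pool.Agent.X69.Domatic
import Pool.Agent.X69.DomUnion
import Pool.Agent.X69.DomUnionVals

/-! The game domatic number of a disjoint union is not a function of the game domatic numbers of
the parts. -/

namespace Pool.Agent.Results.MP_2ce84e_co.NoFunctionA

open Pool.Agent.X69.Domatic SimpleGraph

/-- There is no function expressing the game domatic number of a disjoint union of two finite
nonempty graphs through the game domatic numbers and delayed game domatic numbers of the parts. -/
theorem result : ¬ ∃ f : ℕ → ℕ → ℕ → ℕ → ℕ,
    ∀ (V W : Type) [Fintype V] [Fintype W] [Nonempty V] [Nonempty W] (G : SimpleGraph V)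
      (H : SimpleGraph W), gammaA (G ⊕g H) = f (gammaA G) (gammaB G) (gammaA H) (gammaB H) :=
  no_function_A

end Pool.Agent.Results.MP_2ce84e_co.NoFunctionA
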